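import Pool.Agent.Lib_helper2.Eq2Defs

/-!
Calculus of the transport relation `Eq2.Transp`.
-/

open Filter Topology

namespace Eq2

/-! ### North-west corner rule -/

/-- partial sums -/
def psum (a : ℕ → ℕ) (i : ℕ) : ℕ := ∑ k ∈ Finset.range i, a k

lemma psum_succ (a : ℕ → ℕ) (i : ℕ) : psum a (i + 1) = psum a i + a i := by
  simp [psum, Finset.sum_range_succ]

lemma psum_mono (a : ℕ → ℕ) : Monotone (psum a) :=
  monotone_nat_of_le_succ fun i => by rw [psum_succ]; omega

/-- the north-west corner matrix -/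
def nw (a b : ℕ → ℕ) (i j : ℕ) : ℕ :=
  max (psum a i) (min (psum b (j + 1)) (psum a (i + 1)))
    - max (psum a i) (min (psum b j) (psum a (i + 1)))

lemma nw_comm (a b : ℕ → ℕ) (i j : ℕ) : nw a b i j = nw b a j i := by
  have h1 := psum_mono a (Nat.le_succ i)
  have h2 := psum_mono b (Nat.le_succ j)
  simp only [nw, Nat.succ_eq_add_one] at *
  omega

lemma nw_sum_right (a b : ℕ → ℕ) (m l i : ℕ) (h : psum a m = psum b l) (hi : i < m) :
    ∑ j ∈ Finset.range l, nw a b i j = a i := by
  have hmono : Monotone fun j => max (psum a i) (min (psum b j) (psum a (i + 1))) := by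
    intro x y hxy
    have := psum_mono b hxy
    simp only
    omega
  have h1 := Finset.sum_range_tsub hmono l
  simp only [nw]
  rw [h1]
  have h2 : psum b 0 = 0 := by simp [psum]
  have h3 := psum_succ a i
  have h4 := psum_mono a (show i + 1 ≤ m by omega)
  omega

lemma nw_sum_left (a b : ℕ → ℕ) (m l j : ℕ) (h : psum a m = psum b l) (hj : j < l) :
    ∑ i ∈ Finset.range m, nw a b i j = b j := by
  simp_rw [nw_comm a b]
  exact nw_sum_right b a l m j h.symm hj

/-! ### Families indexed by finite types -/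

variable {Y : Type*} [TopologicalSpace Y] [MeasurableSpace Y] {H : Set (Y ≃ₜ Y)}

lemma Transp.of_fintype {ι : Type*} [Fintype ι] {u v : Y → ℕ} (θ : ι → Y → ℕ) (g : ι → (Y ≃ₜ Y))
    (hθ : ∀ i, Measurable (θ i)) (hg : ∀ i, g i ∈ H)
    (hu : u =ᶠ[residual Y] fun x => ∑ i, θ i x)
    (hv : v =ᶠ[residual Y] fun x => ∑ i, θ i ((g i).symm x)) : Transp H u v := by
  classical
  let e := Fintype.equivFin ι
  refine ⟨Fintype.card ι, fun i => θ (e.symm i), fun i => g (e.symm i), fun i => hθ _,
    fun i => hg _, ?_, ?_⟩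
  · refine hu.trans (Eventually.of_forall fun x => ?_)
    exact (Equiv.sum_comp e.symm (fun i => θ i x)).symm
  · refine hv.trans (Eventually.of_forall fun x => ?_)
    exact (Equiv.sum_comp e.symm (fun i => θ i ((g i).symm x))).symm

lemma Transp.congr {u v u' v' : Y → ℕ} (h : Transp H u v) (hu : u' =ᶠ[residual Y] u)
    (hv : v' =ᶠ[residual Y] v) : Transp H u' v' := by
  obtain ⟨m, θ, g, h1, h2, h3, h4⟩ := h
  exact ⟨m, θ, g, h1, h2, hu.trans h3, hv.trans h4⟩

lemma Transp.mono {H' : Set (Y ≃ₜ Y)} (hH : H ⊆ H') {u v : Y → ℕ} (h : Transp H u v) :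
    Transp H' u v := by
  obtain ⟨m, θ, g, h1, h2, h3, h4⟩ := h
  exact ⟨m, θ, g, h1, fun i => hH (h2 i), h3, h4⟩

lemma Transp.add {u v u' v' : Y → ℕ} (h : Transp H u v) (h' : Transp H u' v') :
    Transp H (fun x => u x + u' x) (fun x => v x + v' x) := by
  obtain ⟨m, θ, g, h1, h2, h3, h4⟩ := h
  obtain ⟨m', θ', g', h1', h2', h3', h4'⟩ := h'
  refine Transp.of_fintype (ι := Fin m ⊕ Fin m') (Sum.elim θ θ') (Sum.elim g g') ?_ ?_ ?_ ?_
  · rintro (i | i) <;> simp [h1, h1']
  · rintro (i | i) <;> simp [h2, h2']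
  · filter_upwards [h3, h3'] with x hx hx'
    simp [Fintype.sum_sum_type, hx, hx']
  · filter_upwards [h4, h4'] with x hx hx'
    simp [Fintype.sum_sum_type, hx, hx']

lemma Transp.single {u : Y → ℕ} (hu : Measurable u) {g : Y ≃ₜ Y} (hg : g ∈ H) :
    Transp H u (fun x => u (g.symm x)) :=
  Transp.of_fintype (ι := Unit) (fun _ => u) (fun _ => g) (fun _ => hu) (fun _ => hg)
    (Eventually.of_forall fun x => by simp) (Eventually.of_forall fun x => by simp)

lemma Transp.zero : Transp H (fun _ => 0) (fun _ => 0) :=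
  Transp.of_fintype (ι := Empty) (fun _ _ => 0) (fun i => i.elim) (fun _ => measurable_const)
    (fun i => i.elim) (Eventually.of_forall fun x => by simp)
    (Eventually.of_forall fun x => by simp)

lemma Transp.sum {ι : Type*} (s : Finset ι) {u v : ι → Y → ℕ}
    (h : ∀ i ∈ s, Transp H (u i) (v i)) :
    Transp H (fun x => ∑ i ∈ s, u i x) (fun x => ∑ i ∈ s, v i x) := by
  classical
  induction s using Finset.induction_on with
  | empty => simpa using Transp.zero
  | insert a s ha ih =>
    simp only [Finset.sum_insert ha]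
    exact (h a (Finset.mem_insert_self a s)).add
      (ih fun i hi => h i (Finset.mem_insert_of_mem hi))

/-- A set of homeomorphisms that is a subgroup. -/
structure IsGrp (H : Set (Y ≃ₜ Y)) : Prop where
  one : Homeomorph.refl Y ∈ H
  inv : ∀ g ∈ H, g.symm ∈ H
  mul : ∀ g ∈ H, ∀ h ∈ H, g.trans h ∈ H

lemma Transp.refl (hH : IsGrp H) {u : Y → ℕ} (hu : Measurable u) : Transp H u u :=
  Transp.single hu hH.one

lemma res_comp (g : Y ≃ₜ Y) {P : Y → Prop} (h : ∀ᶠ x in residual Y, P x) :
    ∀ᶠ x in residual Y, P (g x) :=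
  (tendsto_residual_of_isOpenMap g.continuous g.isOpenMap).eventually h

lemma Transp.symm [BorelSpace Y] (hH : IsGrp H) {u v : Y → ℕ} (h : Transp H u v) :
    Transp H v u := by
  obtain ⟨m, θ, g, h1, h2, h3, h4⟩ := h
  refine ⟨m, fun i x => θ i ((g i).symm x), fun i => (g i).symm, fun i => ?_,
    fun i => hH.inv _ (h2 i), h4, ?_⟩
  · exact (h1 i).comp (g i).symm.continuous.measurable
  · refine h3.trans (Eventually.of_forall fun x => ?_)
    simp

lemma Transp.trans [BorelSpace Y] (hH : IsGrp H) {u v w : Y → ℕ} (h : Transp H u v)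
    (h' : Transp H v w) : Transp H u w := by
  obtain ⟨m, θ, g, h1, h2, h3, h4⟩ := h
  obtain ⟨l, η, k, h1', h2', h3', h4'⟩ := h'
  -- the common refinement, at the middle
  let a : Y → ℕ → ℕ := fun x i => if hi : i < m then θ ⟨i, hi⟩ ((g ⟨i, hi⟩).symm x) else 0
  let b : Y → ℕ → ℕ := fun x j => if hj : j < l then η ⟨j, hj⟩ x else 0
  have hapsum : ∀ x, psum (a x) m = ∑ i, θ i ((g i).symm x) := by
    intro x
    rw [psum, Finset.sum_range]
    refine Finset.sum_congr rfl fun i _ => ?_
    simp [a]
  have hbpsum : ∀ x, psum (b x) l = ∑ j, η j x := by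
    intro x
    rw [psum, Finset.sum_range]
    refine Finset.sum_congr rfl fun i _ => ?_
    simp [b]
  have hma : ∀ i, Measurable fun x => psum (a x) i := by
    intro i
    unfold psum
    refine Finset.measurable_sum _ fun k _ => ?_
    by_cases hk : k < m
    · simp only [a, hk, dif_pos]
      exact (h1 _).comp (g _).symm.continuous.measurable
    · simp only [a, hk, dif_neg, not_false_eq_true]
      exact measurable_const
  have hmb : ∀ i, Measurable fun x => psum (b x) i := by
    intro i
    unfold psum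
    refine Finset.measurable_sum _ fun k _ => ?_
    by_cases hk : k < l
    · simp only [b, hk, dif_pos]
      exact h1' _
    · simp only [b, hk, dif_neg, not_false_eq_true]
      exact measurable_const
  have hmn : ∀ i j, Measurable fun x => nw (a x) (b x) i j := by
    intro i j
    unfold nw
    exact ((hma i).max ((hmb (j + 1)).min (hma (i + 1)))).sub
      ((hma i).max ((hmb j).min (hma (i + 1))))
  have hmid : ∀ᶠ x in residual Y, psum (a x) m = psum (b x) l := by
    filter_upwards [h4, h3'] with x hx hx'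
    rw [hapsum, hbpsum, ← hx, ← hx']
  refine Transp.of_fintype (ι := Fin m × Fin l)
    (fun p x => nw (a (g p.1 x)) (b (g p.1 x)) p.1 p.2)
    (fun p => (g p.1).trans (k p.2)) ?_ ?_ ?_ ?_
  · intro p
    exact (hmn p.1 p.2).comp (g p.1).continuous.measurable
  · intro p
    exact hH.mul _ (h2 _) _ (h2' _)
  · have hall : ∀ᶠ x in residual Y, ∀ i, psum (a (g i x)) m = psum (b (g i x)) l :=
      eventually_all.2 fun i => res_comp (g i) hmid
    filter_upwards [h3, hall] with x hx hx'
    rw [hx, Fintype.sum_prod_type]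
    refine Finset.sum_congr rfl fun i _ => ?_
    have := nw_sum_right (a (g i x)) (b (g i x)) m l i (hx' i) i.2
    rw [Finset.sum_range] at this
    rw [this]
    simp [a]
  · have hall : ∀ᶠ x in residual Y, ∀ j, psum (a ((k j).symm x)) m = psum (b ((k j).symm x)) l :=
      eventually_all.2 fun j => res_comp (k j).symm hmid
    filter_upwards [h4', hall] with x hx hx'
    rw [hx, Fintype.sum_prod_type_right]
    refine Finset.sum_congr rfl fun j _ => ?_
    have := nw_sum_left (a ((k j).symm x)) (b ((k j).symm x)) m l j (hx' j) j.2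
    rw [Finset.sum_range] at this
    simp only [Homeomorph.symm_trans_apply, Homeomorph.apply_symm_apply]
    rw [this]
    simp [b]

/-! ### The groups -/

lemma isGrp_isoms (Z : Type*) [PseudoMetricSpace Z] [MeasurableSpace Z] : IsGrp (isoms Z) where
  one := isometry_id
  inv := fun g hg => by
    have : Isometry g := hg
    exact this.right_inv g.apply_symm_apply
  mul := fun g hg h hh => by
    have h1 : Isometry g := hg
    have h2 : Isometry h := hh
    exact h2.comp h1

lemma mem_transl {Z : Type*} [AddCommGroup Z] [TopologicalSpace Z] [IsTopologicalAddGroup Z]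
    {g : Z ≃ₜ Z} : g ∈ transl Z ↔ ∃ v, ∀ x, g x = x + v := by
  constructor
  · rintro ⟨v, rfl⟩
    exact ⟨v, fun x => rfl⟩
  · rintro ⟨v, hv⟩
    exact ⟨v, Homeomorph.ext fun x => (hv x).symm⟩

lemma isGrp_transl (Z : Type*) [AddCommGroup Z] [TopologicalSpace Z] [IsTopologicalAddGroup Z]
    [MeasurableSpace Z] : IsGrp (transl Z) where
  one := mem_transl.2 ⟨0, fun x => by simp⟩
  inv := fun g hg => by
    obtain ⟨v, hv⟩ := mem_transl.1 hg
    refine mem_transl.2 ⟨-v, fun x => ?_⟩
    rw [Homeomorph.symm_apply_eq, hv]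
    simp
  mul := fun g hg h hh => by
    obtain ⟨v, hv⟩ := mem_transl.1 hg
    obtain ⟨w, hw⟩ := mem_transl.1 hh
    refine mem_transl.2 ⟨v + w, fun x => ?_⟩
    simp [hv, hw, add_assoc]

end Eq2
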