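import Mathlib

/-!
Interface for MP_95d7dd_gt (cancellation by 2 for regular-open equidecomposability types).

* `Eq2.Transp H u v` : two `ℕ`-valued functions are related by moving finitely many Borel pieces
  by homeomorphisms in `H`, modulo meager sets.
* `Eq2.CoreZ0 X`, `Eq2.CoreQ X` : the two statements about a topological abelian group needed
  from the core part.
-/

open Filter Topology

namespace Eq2

/-- The function `u` is, off a meager set, a finite sum of Borel functions `θ i`, and `v` is, off a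
meager set, the sum of the `θ i` moved by homeomorphisms `g i ∈ H`. -/
def Transp {Y : Type*} [TopologicalSpace Y] [MeasurableSpace Y] (H : Set (Y ≃ₜ Y))
    (u v : Y → ℕ) : Prop :=
  ∃ (m : ℕ) (θ : Fin m → Y → ℕ) (g : Fin m → (Y ≃ₜ Y)),
    (∀ i, Measurable (θ i)) ∧ (∀ i, g i ∈ H) ∧
    (u =ᶠ[residual Y] fun x => ∑ i, θ i x) ∧
    (v =ᶠ[residual Y] fun x => ∑ i, θ i ((g i).symm x))

/-- All isometric homeomorphisms of a (pseudo)metric space. -/
def isoms (Y : Type*) [PseudoMetricSpace Y] : Set (Y ≃ₜ Y) := {g | Isometry g}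

/-- All translations of a topological abelian group. -/
def transl (Y : Type*) [AddCommGroup Y] [TopologicalSpace Y] [IsTopologicalAddGroup Y] :
    Set (Y ≃ₜ Y) := Set.range (fun v : Y => Homeomorph.addRight v)

section core

variable (X : Type) [AddCommGroup X] [TopologicalSpace X] [MeasurableSpace X]

/-- (Z0): every Borel `p : X → ZMod 2` is, off a meager set, a sum of two coboundaries. -/
def CoreZ0 : Prop :=
  ∀ s : Fin 3 → X, LinearIndependent ℤ s → ∀ p : X → ZMod 2, Measurable p →
    ∃ h₁ h₂ : X → ZMod 2, Measurable h₁ ∧ Measurable h₂ ∧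
      p =ᶠ[residual X] fun x => (h₁ x - h₁ (x - s 0)) + (h₂ x - h₂ (x - s 1))

/-- (Q): if `2 w` is a sum of `k` coboundaries of `0/1`-valued functions, then `w` is a sum of
`k + 3` coboundaries of functions bounded by `k + 2`. -/
def CoreQ : Prop :=
  ∀ s : Fin 3 → X, LinearIndependent ℤ s →
    ∀ (k : ℕ) (w : X → ℤ) (z : Fin k → X → ℤ) (v : Fin k → X),
      Measurable w → (∀ i, Measurable (z i)) → (∀ i x, z i x = 0 ∨ z i x = 1) →
      ((fun x => 2 * w x) =ᶠ[residual X] fun x => ∑ i, (z i x - z i (x - v i))) →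
      ∃ (c : Fin (k + 3) → X → ℤ) (u : Fin (k + 3) → X),
        (∀ j, Measurable (c j)) ∧ (∀ j x, |c j x| ≤ (k : ℤ) + 2) ∧
        (w =ᶠ[residual X] fun x => ∑ j, (c j x - c j (x - u j)))

end core

end Eq2
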