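import Pool.Agent.Lib_helper2.Eq2Transp

/-!
Halving and cancellation on a topological abelian group, from the two core statements.
-/

open Filter Topology

set_option linter.unusedSectionVars false

namespace Eq2

section

variable {X : Type} [AddCommGroup X] [TopologicalSpace X] [IsTopologicalAddGroup X]
  [MeasurableSpace X] [BorelSpace X]

lemma measurable_shift {α : Type*} [MeasurableSpace α] {f : X → α} (hf : Measurable f) (v : X) :
    Measurable fun x => f (x - v) :=
  hf.comp (continuous_id.sub continuous_const).measurable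

lemma transp_shift {f : X → ℕ} (hf : Measurable f) (v : X) :
    Transp (transl X) f (fun x => f (x - v)) := by
  have h := Transp.single (H := transl X) hf (g := Homeomorph.addRight v) ⟨v, rfl⟩
  refine h.congr (Eventually.of_forall fun x => rfl) (Eventually.of_forall fun x => ?_)
  show f (x - v) = f (x + -v)
  rw [sub_eq_add_neg]

lemma res_shift {P : X → Prop} (h : ∀ᶠ x in residual X, P x) (v : X) :
    ∀ᶠ x in residual X, P (x - v) := by
  have := res_comp (Homeomorph.addRight (-v)) h
  filter_upwards [this] with x hx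
  simpa [sub_eq_add_neg] using hx

/-- Statement (Z0). -/
def Z0 (X : Type) [AddCommGroup X] [TopologicalSpace X] [MeasurableSpace X] : Prop :=
  ∀ (s₁ s₂ : X), (∀ a b : ℤ, a • s₁ + b • s₂ = 0 → a = 0 ∧ b = 0) →
    ∀ c : X → ZMod 2, Measurable c →
    ∃ d₁ d₂ : X → ZMod 2, Measurable d₁ ∧ Measurable d₂ ∧
      ∀ᶠ x in residual X, c x = (d₁ (x - s₁) + d₁ x) + (d₂ (x - s₂) + d₂ x)

/-- Statement (Q). -/
def Q (X : Type) [AddCommGroup X] [TopologicalSpace X] [MeasurableSpace X] : Prop :=
  ∀ (s₁ s₂ s₃ : X), (∀ a b c : ℤ, a • s₁ + b • s₂ + c • s₃ = 0 → a = 0 ∧ b = 0 ∧ c = 0) →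
    ∀ (k : ℕ) (w : X → ℤ), Measurable w → ∀ z : Fin k → X → ℤ, (∀ i, Measurable (z i)) →
    (∀ i x, z i x = 0 ∨ z i x = 1) → ∀ v : Fin k → X,
    (∀ᶠ x in residual X, 2 * w x = ∑ i, (z i x - z i (x - v i))) →
    ∃ (c : Fin (k + 3) → X → ℤ) (u : Fin (k + 3) → X), (∀ j, Measurable (c j)) ∧
      (∀ j x, |c j x| ≤ (k : ℤ) + 2) ∧
      ∀ᶠ x in residual X, w x = ∑ j, (c j x - c j (x - u j))

lemma halving_X (hZ : Z0 X) (s₁ s₂ : X) (hs : ∀ a b : ℤ, a • s₁ + b • s₂ = 0 → a = 0 ∧ b = 0)
    {F : X → ℕ} (hF : Measurable F) (h2 : ∀ᶠ x in residual X, 2 ≤ F x) :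
    ∃ q : X → ℕ, Measurable q ∧ Transp (transl X) F (fun x => 2 * q x) := by
  have hcast : Measurable fun m : ℕ => (m : ZMod 2) := measurable_of_countable _
  have hval : Measurable fun m : ZMod 2 => m.val := measurable_of_countable _
  obtain ⟨d₁, d₂, hd₁, hd₂, hd⟩ := hZ s₁ s₂ hs (fun x => (F x : ZMod 2)) (hcast.comp hF)
  have hm1 : Measurable fun x => (d₁ x).val := hval.comp hd₁
  have hm2 : Measurable fun x => (d₂ x).val := hval.comp hd₂
  let F₀ : X → ℕ := fun x => F x - (d₁ x).val - (d₂ x).val
  have hF₀ : Measurable F₀ := (hF.sub hm1).sub hm2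
  let F₁ : X → ℕ := fun x => F₀ x + ((d₁ (x - s₁)).val + (d₂ (x - s₂)).val)
  have hF₁ : Measurable F₁ := hF₀.add ((measurable_shift hm1 s₁).add (measurable_shift hm2 s₂))
  refine ⟨fun x => F₁ x / 2, (measurable_of_countable fun m : ℕ => m / 2).comp hF₁, ?_⟩
  have hT : Transp (transl X) (fun x => F₀ x + ((d₁ x).val + (d₂ x).val)) F₁ :=
    (Transp.refl (isGrp_transl X) hF₀).add ((transp_shift hm1 s₁).add (transp_shift hm2 s₂))
  refine hT.congr ?_ ?_
  · filter_upwards [h2] with x hx
    have h1 := ZMod.val_lt (d₁ x)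
    have h1' := ZMod.val_lt (d₂ x)
    simp only [F₀]
    omega
  · filter_upwards [h2, hd] with x hx hdx
    have h1 := ZMod.val_lt (d₁ x)
    have h1' := ZMod.val_lt (d₂ x)
    have heven : F₁ x % 2 = 0 := by
      have h3 : ((F x + (d₁ x).val + (d₂ x).val + (d₁ (x - s₁)).val + (d₂ (x - s₂)).val : ℕ)
          : ZMod 2) = 0 := by
        push_cast
        rw [ZMod.natCast_zmod_val, ZMod.natCast_zmod_val, ZMod.natCast_zmod_val,
          ZMod.natCast_zmod_val, hdx]
        generalize d₁ x = a
        generalize d₂ x = b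
        generalize d₁ (x - s₁) = c
        generalize d₂ (x - s₂) = d
        revert a b c d
        decide
      rw [ZMod.natCast_eq_zero_iff] at h3
      simp only [F₁, F₀]
      omega
    omega

lemma cancel_X (hQ : Q X) (s₁ s₂ s₃ : X)
    (hs : ∀ a b c : ℤ, a • s₁ + b • s₂ + c • s₃ = 0 → a = 0 ∧ b = 0 ∧ c = 0)
    {k : ℕ} {F G : X → ℕ} (θ : Fin k → X → ℕ) (hθ : ∀ i, Measurable (θ i)) (v : Fin k → X)
    (hF : ∀ᶠ x in residual X, 2 * F x = ∑ i, θ i x)
    (hG : ∀ᶠ x in residual X, 2 * G x = ∑ i, θ i (x - v i))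
    (hN : ∀ᶠ x in residual X, 2 * ((k + 3) * (k + 2)) + k ≤ G x) :
    Transp (transl X) F G := by
  have hdiv : Measurable fun m : ℕ => m / 2 := measurable_of_countable _
  have hmod : Measurable fun m : ℕ => m % 2 := measurable_of_countable _
  have hmψ : ∀ i, Measurable fun x => θ i x / 2 := fun i => hdiv.comp (hθ i)
  have hmz : ∀ i, Measurable fun x => θ i x % 2 := fun i => hmod.comp (hθ i)
  let a : X → ℕ := fun x => (∑ i, θ i x % 2) / 2
  let b : X → ℕ := fun x => (∑ i, θ i (x - v i) % 2) / 2
  have ha : Measurable a := hdiv.comp (Finset.measurable_sum _ fun i _ => hmz i)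
  have hb : Measurable b := hdiv.comp
    (Finset.measurable_sum _ fun i _ => measurable_shift (hmz i) (v i))
  let e : X → ℕ := fun x => ∑ i, θ i (x - v i) / 2
  have he : Measurable e := Finset.measurable_sum _ fun i _ => measurable_shift (hmψ i) (v i)
  have split : ∀ t : Fin k → ℕ, ∑ i, t i = 2 * ∑ i, t i / 2 + ∑ i, t i % 2 := by
    intro t
    rw [Finset.mul_sum, ← Finset.sum_add_distrib]
    exact Finset.sum_congr rfl fun i _ => by omega
  have hF' : ∀ᶠ x in residual X, F x = (∑ i, θ i x / 2) + a x ∧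
      2 * a x = ∑ i, θ i x % 2 := by
    filter_upwards [hF] with x hx
    have := split fun i => θ i x
    simp only [a]
    omega
  have hG' : ∀ᶠ x in residual X, G x = e x + b x ∧ 2 * b x = ∑ i, θ i (x - v i) % 2 := by
    filter_upwards [hG] with x hx
    have := split fun i => θ i (x - v i)
    simp only [b, e]
    omega
  have hbk : ∀ x, b x ≤ k := by
    intro x
    have h1 : ∑ i, θ i (x - v i) % 2 ≤ ∑ _i : Fin k, 1 :=
      Finset.sum_le_sum fun i _ => by omega
    simp only [Finset.sum_const, Finset.card_univ, Fintype.card_fin, smul_eq_mul, mul_one] at h1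
    simp only [b]
    omega
  have hzcast : Measurable fun m : ℕ => (m : ℤ) := measurable_of_countable _
  obtain ⟨c, u, hc, hcb, hcw⟩ := hQ s₁ s₂ s₃ hs k (fun x => (a x : ℤ) - b x)
    ((hzcast.comp ha).sub (hzcast.comp hb)) (fun i x => ((θ i x % 2 : ℕ) : ℤ))
    (fun i => hzcast.comp (hmz i)) (fun i x => by omega) v (by
      filter_upwards [hF', hG'] with x hx hx'
      have h1 := hx.2
      have h2 := hx'.2
      have h3 : (2 : ℤ) * a x = ∑ i, ((θ i x % 2 : ℕ) : ℤ) := by exact_mod_cast h1
      have h4 : (2 : ℤ) * b x = ∑ i, ((θ i (x - v i) % 2 : ℕ) : ℤ) := by exact_mod_cast h2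
      rw [Finset.sum_sub_distrib, ← h3, ← h4]
      ring)
  have hpm : Measurable fun m : ℤ => m.toNat := measurable_of_countable _
  have hnm : Measurable fun m : ℤ => (-m).toNat := measurable_of_countable _
  have hcp : ∀ j, Measurable fun x => (c j x).toNat := fun j => hpm.comp (hc j)
  have hcn : ∀ j, Measurable fun x => (-c j x).toNat := fun j => hnm.comp (hc j)
  let M : X → ℕ := fun x => ∑ j, ((c j x).toNat + (-c j (x - u j)).toNat)
  let M' : X → ℕ := fun x => ∑ j, ((c j (x - u j)).toNat + (-c j x).toNat)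
  have hM : Measurable M := Finset.measurable_sum _ fun j _ =>
    (hcp j).add (measurable_shift (hcn j) (u j))
  have hMle : ∀ x, M x ≤ 2 * ((k + 3) * (k + 2)) := by
    intro x
    have h1 : M x ≤ ∑ _j : Fin (k + 3), 2 * (k + 2) := by
      refine Finset.sum_le_sum fun j _ => ?_
      have h2 := hcb j x
      have h3 := hcb j (x - u j)
      rw [abs_le] at h2 h3
      omega
    simp only [Finset.sum_const, Finset.card_univ, Fintype.card_fin, smul_eq_mul] at h1
    calc M x ≤ _ := h1
      _ = _ := by ring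
  have hMM : ∀ x, ((M x : ℤ) - M' x) = ∑ j, (c j x - c j (x - u j)) := by
    intro x
    simp only [M, M']
    push_cast
    rw [← Finset.sum_sub_distrib]
    refine Finset.sum_congr rfl fun j _ => ?_
    omega
  -- the fixed part
  let r : X → ℕ := fun x => e x + a x - M x
  have hr : Measurable r := (he.add ha).sub hM
  have hTM : Transp (transl X) M M' := by
    refine Transp.sum _ fun j _ => (transp_shift (hcp j) (u j)).add ?_
    exact (transp_shift (hcn j) (u j)).symm (isGrp_transl X)
  have h1 : Transp (transl X) F (fun x => e x + a x) := by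
    have h2 : Transp (transl X) (fun x => (∑ i, θ i x / 2) + a x) (fun x => e x + a x) :=
      (Transp.sum _ fun i _ => transp_shift (hmψ i) (v i)).add
        (Transp.refl (isGrp_transl X) ha)
    refine h2.congr ?_ (Eventually.of_forall fun x => rfl)
    filter_upwards [hF'] with x hx using hx.1
  have h2 : Transp (transl X) (fun x => e x + a x) G := by
    have h3 : Transp (transl X) (fun x => r x + M x) (fun x => r x + M' x) :=
      (Transp.refl (isGrp_transl X) hr).add hTM
    have hge : ∀ᶠ x in residual X, M x ≤ e x := by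
      filter_upwards [hG', hN] with x hx hx'
      have := hbk x
      have := hMle x
      omega
    refine h3.congr ?_ ?_
    · filter_upwards [hge] with x hx
      simp only [r]
      omega
    · filter_upwards [hge, hG', hcw] with x hx hx' hx''
      have := hMM x
      simp only [r]
      omega
  exact h1.trans (isGrp_transl X) h2

end

end Eq2
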