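import Pool.Agent.Lib_helper2.Eq2Torus
import Pool.Agent.Lib_helper2.Eq2Group

/-!
Comparison of transport on `ℝ^n` and on the torus, and multiplicity of small lattices.
-/

open Filter Topology

set_option linter.unusedSectionVars false

namespace Eq2

noncomputable section

section support

variable {Y : Type*} [TopologicalSpace Y] [MeasurableSpace Y] {H : Set (Y ≃ₜ Y)}

/-- The pieces may be taken to vanish where `u` vanishes. -/
lemma Transp.exists_support {u v : Y → ℕ} (hu : Measurable u) (h : Transp H u v) :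
    ∃ (m : ℕ) (θ : Fin m → Y → ℕ) (g : Fin m → (Y ≃ₜ Y)),
      (∀ i, Measurable (θ i)) ∧ (∀ i, g i ∈ H) ∧ (∀ i x, u x = 0 → θ i x = 0) ∧
      (u =ᶠ[residual Y] fun x => ∑ i, θ i x) ∧
      (v =ᶠ[residual Y] fun x => ∑ i, θ i ((g i).symm x)) := by
  classical
  obtain ⟨m, θ, g, h1, h2, h3, h4⟩ := h
  have key : ∀ i, ∀ᶠ x in residual Y, (if u x = 0 then 0 else θ i x) = θ i x := by
    intro i
    filter_upwards [h3] with x hx
    split_ifs with h0
    · rw [h0] at hx
      exact ((Finset.sum_eq_zero_iff.1 hx.symm) i (Finset.mem_univ i)).symm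
    · rfl
  refine ⟨m, fun i x => if u x = 0 then 0 else θ i x, g, fun i => ?_, h2, fun i x hx => ?_, ?_, ?_⟩
  · exact Measurable.ite (hu (measurableSet_singleton 0)) measurable_const (h1 i)
  · simp [hx]
  · filter_upwards [h3, eventually_all.2 key] with x hx hx'
    exact hx.trans (Finset.sum_congr rfl fun i _ => (hx' i).symm)
  · filter_upwards [h4, eventually_all.2 fun i => res_comp (g i).symm (key i)] with x hx hx'
    exact hx.trans (Finset.sum_congr rfl fun i _ => (hx' i).symm)

end support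

variable {n : ℕ} {ε : ℝ} [hε : Fact (0 < ε)]

instance : BaireSpace (AddCircle ε) := inferInstance

lemma bar_congr {f g : Eu n → ℕ} {ξ : Tor n ε}
    (h : ∀ l, f (sec ε ξ + lat ε l) = g (sec ε ξ + lat ε l)) : bar ε f ξ = bar ε g ξ := by
  unfold bar
  congr 1
  funext l
  exact h l

lemma transp_pieces_bar {m : ℕ} {u v : Eu n → ℕ} {θ : Fin m → Eu n → ℕ} {t : Fin m → Eu n}
    (hb : ∀ i, BS (θ i)) (hu : ∀ᶠ x in residual (Eu n), u x = ∑ i, θ i x)
    (hv : ∀ᶠ x in residual (Eu n), v x = ∑ i, θ i (x - t i)) :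
    (∀ᶠ ξ in residual (Tor n ε), bar ε u ξ = ∑ i, bar ε (θ i) ξ) ∧
    (∀ᶠ ξ in residual (Tor n ε), bar ε v ξ = ∑ i, bar ε (θ i) (ξ - prj ε (t i))) := by
  constructor
  · filter_upwards [res_sec hu] with ξ hξ
    rw [bar_congr (g := fun x => ∑ i, θ i x) hξ, bar_finset_sum _ fun i _ => hb i]
  · filter_upwards [res_sec hv] with ξ hξ
    rw [bar_congr (g := fun x => ∑ i, θ i (x - t i)) hξ,
      bar_finset_sum _ fun i _ => (hb i).shift _]
    exact Finset.sum_congr rfl fun i _ => bar_shift _ _ _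

lemma transl_pieces {Z : Type*} [AddCommGroup Z] [TopologicalSpace Z] [IsTopologicalAddGroup Z]
    [MeasurableSpace Z] {m : ℕ} {v : Z → ℕ} {θ : Fin m → Z → ℕ} {g : Fin m → (Z ≃ₜ Z)}
    (hg : ∀ i, g i ∈ transl Z) (hv : v =ᶠ[residual Z] fun x => ∑ i, θ i ((g i).symm x)) :
    ∃ t : Fin m → Z, ∀ᶠ x in residual Z, v x = ∑ i, θ i (x - t i) := by
  choose t ht using fun i => mem_transl.1 (hg i)
  refine ⟨t, ?_⟩
  filter_upwards [hv] with x hx
  rw [hx]
  refine Finset.sum_congr rfl fun i _ => ?_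
  congr 1
  rw [Homeomorph.symm_apply_eq, ht i]
  simp

lemma transp_toE {F G : Tor n ε → ℕ} (h : Transp (transl (Tor n ε)) F G) :
    Transp (transl (Eu n)) (toE ε F) (toE ε G) := by
  obtain ⟨m, θ, g, h1, h2, h3, h4⟩ := h
  obtain ⟨t, ht⟩ := transl_pieces h2 h4
  have hG := isGrp_transl (Eu n)
  have key : ∀ i, Transp (transl (Eu n)) (toE ε (θ i)) (toE ε fun ξ => θ i (ξ - t i)) := by
    intro i
    have hm := measurable_toE (h1 i)
    have a1 := transp_shift hm (sec ε (t i))
    have a2 := transp_toE_bar (ε := ε) (measurable_shift hm (sec ε (t i)))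
      ((BS_toE (θ i)).shift _)
    refine (a1.trans hG a2).congr (Eventually.of_forall fun x => rfl)
      (Eventually.of_forall fun x => ?_)
    congr 1
    funext ξ
    rw [bar_shift, bar_toE, prj_sec]
  refine (Transp.sum Finset.univ fun i _ => key i).congr ?_ ?_
  · filter_upwards [res_prj h3] with x hx
    unfold toE
    split_ifs with hs
    · exact hx
    · simp
  · filter_upwards [res_prj ht] with x hx
    unfold toE
    split_ifs with hs
    · exact hx
    · simp

lemma transp_of_bar {f g : Eu n → ℕ} (hf : Measurable f) (hg : Measurable g) (hfb : BS f)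
    (hgb : BS g) (h : Transp (transl (Tor n ε)) (bar ε f) (bar ε g)) :
    Transp (transl (Eu n)) f g :=
  ((transp_toE_bar (ε := ε) hf hfb).trans (isGrp_transl _) (transp_toE h)).trans
    (isGrp_transl _) ((transp_toE_bar (ε := ε) hg hgb).symm (isGrp_transl _))

/-! ### Multiplicity -/

lemma exists_eps (hn : 0 < n) {g : Eu n → ℕ} (hg : Measurable g) (hb : BS g)
    (h0 : ¬ ∀ᶠ x in residual (Eu n), g x = 0) (N : ℕ) :
    ∃ (ε : ℝ) (_ : Fact (0 < ε)), ∀ᶠ ξ in residual (Tor n ε), N ≤ bar ε g ξ := by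
  classical
  have hms : MeasurableSet {x | g x ≠ 0} := (hg (measurableSet_singleton 0)).compl
  obtain ⟨u, huo, hu⟩ := hms.residualEq_isOpen
  have hune : u.Nonempty := by
    by_contra hemp
    rw [Set.not_nonempty_iff_eq_empty] at hemp
    apply h0
    filter_upwards [hu] with x hx
    rw [hemp] at hx
    by_contra hne
    have : x ∈ (∅ : Set (Eu n)) := by
      have h1 : {x | g x ≠ 0} x := hne
      rw [hx] at h1
      exact h1
    exact this
  obtain ⟨c, hc⟩ := hune
  -- sup-norm ball inside `u`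
  have hpre : IsOpen ((fun y : Fin n → ℝ => (WithLp.toLp 2 y : Eu n)) ⁻¹' u) :=
    huo.preimage (PiLp.continuous_toLp 2 _)
  obtain ⟨δ, hδ, hball⟩ := Metric.isOpen_iff.1 hpre (fun i => c i) (by simpa using hc)
  have hin : ∀ x : Eu n, (∀ i, |x i - c i| < δ) → x ∈ u := by
    intro x hx
    have : (fun i => x i) ∈ Metric.ball (fun i => c i) δ := by
      rw [Metric.mem_ball, dist_pi_lt_iff hδ]
      intro i
      rw [Real.dist_eq]
      exact hx i
    have := hball this
    simpa using this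
  have hN1 : (0 : ℝ) < N + 1 := by positivity
  let ε : ℝ := δ / (N + 1)
  have hε0 : 0 < ε := div_pos hδ hN1
  have hF : Fact (0 < ε) := ⟨hε0⟩
  refine ⟨ε, hF, ?_⟩
  have hres : ∀ᶠ x in residual (Eu n), x ∈ u → 1 ≤ g x := by
    filter_upwards [hu] with x hx hxu
    have h1 : u x := hxu
    rw [← hx] at h1
    have h2 : g x ≠ 0 := h1
    omega
  filter_upwards [res_sec (ε := ε) hres] with ξ hξ
  let i0 : Fin n := ⟨0, hn⟩
  let L : ℕ → (Fin n → ℤ) := fun j i => ⌊(c i - sec ε ξ i) / ε⌋ - (if i = i0 then (j : ℤ) else 0)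
  have hLinj : Function.Injective L := by
    intro j j' hjj
    have := congrFun hjj i0
    simp only [L, if_true] at this
    omega
  have hL : ∀ j < N, g (sec ε ξ + lat ε (L j)) ≥ 1 := by
    intro j hj
    apply hξ
    apply hin
    intro i
    have e1 : (sec ε ξ + lat ε (L j)) i = sec ε ξ i + (L j i : ℝ) * ε := rfl
    rw [e1]
    have hfl := Int.floor_le ((c i - sec ε ξ i) / ε)
    have hfl2 := Int.lt_floor_add_one ((c i - sec ε ξ i) / ε)
    rw [le_div_iff₀ hε0] at hfl
    rw [div_lt_iff₀ hε0] at hfl2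
    have hδε : δ = ε * (N + 1) := by
      simp only [ε]
      field_simp
    have hjN : (j : ℝ) + 1 ≤ N := by exact_mod_cast hj
    have hj0 : (0 : ℝ) ≤ j := by positivity
    simp only [L]
    push_cast
    rw [abs_lt, hδε]
    split_ifs with hi
    · constructor
      · nlinarith
      · nlinarith
    · constructor
      · nlinarith
      · nlinarith
  obtain ⟨N', hN'⟩ := hb.exists_box (ε := ε)
  rw [bar_eq_sum (hN' ξ)]
  have hsub : (Finset.range N).image L ⊆ box n N' := by
    intro l hl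
    obtain ⟨j, hj, rfl⟩ := Finset.mem_image.1 hl
    apply hN' ξ
    have := hL j (Finset.mem_range.1 hj)
    omega
  calc N = ((Finset.range N).image L).card := by
        rw [Finset.card_image_of_injective _ hLinj, Finset.card_range]
    _ = ∑ l ∈ (Finset.range N).image L, 1 := by simp
    _ ≤ ∑ l ∈ (Finset.range N).image L, g (sec ε ξ + lat ε l) := by
        refine Finset.sum_le_sum fun l hl => ?_
        obtain ⟨j, hj, rfl⟩ := Finset.mem_image.1 hl
        exact hL j (Finset.mem_range.1 hj)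
    _ ≤ ∑ l ∈ box n N', g (sec ε ξ + lat ε l) := Finset.sum_le_sum_of_subset hsub

/-! ### Independent elements -/

lemma exists_indep (hn : 0 < n) (ε : ℝ) [hε : Fact (0 < ε)] :
    ∃ s₁ s₂ s₃ : Tor n ε, ∀ a b c : ℤ, a • s₁ + b • s₂ + c • s₃ = 0 → a = 0 ∧ b = 0 ∧ c = 0 := by
  have htr := transcendental_liouvilleNumber (m := 2) le_rfl
  generalize liouvilleNumber ((2 : ℕ) : ℝ) = t at htr
  let s : ℕ → Tor n ε := fun k _ => ((t ^ k * ε : ℝ) : AddCircle ε)
  refine ⟨s 1, s 2, s 3, fun a b c h => ?_⟩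
  have h1 : (a • s 1 + b • s 2 + c • s 3) ⟨0, hn⟩ = (0 : AddCircle ε) := congrFun h ⟨0, hn⟩
  have h2 : (((a * t ^ 1 + b * t ^ 2 + c * t ^ 3) * ε : ℝ) : AddCircle ε) = 0 := by
    refine Eq.trans ?_ h1
    simp only [s, Pi.add_apply, Pi.smul_apply]
    rw [← AddCircle.coe_zsmul, ← AddCircle.coe_zsmul, ← AddCircle.coe_zsmul,
      ← AddCircle.coe_add, ← AddCircle.coe_add]
    congr 1
    simp only [zsmul_eq_mul]
    ring
  rw [AddCircle.coe_eq_zero_iff] at h2
  obtain ⟨m, hm⟩ := h2
  have hε0 : ε ≠ 0 := hε.out.ne'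
  have h3 : (m : ℝ) = a * t ^ 1 + b * t ^ 2 + c * t ^ 3 := by
    apply mul_right_cancel₀ hε0
    rw [← hm]
    simp
  by_contra hne
  apply htr
  let p : Polynomial ℤ := Polynomial.C (-m) + Polynomial.C a * Polynomial.X ^ 1
    + Polynomial.C b * Polynomial.X ^ 2 + Polynomial.C c * Polynomial.X ^ 3
  refine ⟨p, ?_, ?_⟩
  · intro hp
    apply hne
    have c1 : p.coeff 1 = a := by
      simp only [p, Polynomial.coeff_add, Polynomial.coeff_C_mul, Polynomial.coeff_X_pow,
        Polynomial.coeff_C]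
      norm_num
    have c2 : p.coeff 2 = b := by
      simp only [p, Polynomial.coeff_add, Polynomial.coeff_C_mul, Polynomial.coeff_X_pow,
        Polynomial.coeff_C]
      norm_num
    have c3 : p.coeff 3 = c := by
      simp only [p, Polynomial.coeff_add, Polynomial.coeff_C_mul, Polynomial.coeff_X_pow,
        Polynomial.coeff_C]
      norm_num
    rw [hp] at c1 c2 c3
    simp only [Polynomial.coeff_zero] at c1 c2 c3
    exact ⟨c1.symm, c2.symm, c3.symm⟩
  · simp only [p, map_add, map_mul, map_pow, Polynomial.aeval_C, Polynomial.aeval_X, map_neg]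
    simp only [algebraMap_int_eq, eq_intCast]
    linarith

end

end Eq2
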