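import Pool.Agent.Lib_helper2.Eq2Lift
import Pool.Agent.Lib_helper74.Canc.Core

/-!
Main theorem: cancellation by 2 for the transport relation of isometries of `ℝ^n`.
-/

open Filter Topology

set_option linter.unusedSectionVars false

namespace Eq2

noncomputable section

variable {n : ℕ}

lemma bar_two {ε : ℝ} [Fact (0 < ε)] {f : Eu n → ℕ} (hb : BS f) (ξ : Tor n ε) :
    bar ε (fun x => 2 * f x) ξ = 2 * bar ε f ξ := by
  have := bar_add (ε := ε) hb hb ξ
  simp only [← two_mul] at this
  exact this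

lemma Transp.right_zero {Y : Type*} [TopologicalSpace Y] [MeasurableSpace Y] {H : Set (Y ≃ₜ Y)}
    {u v : Y → ℕ} (h : Transp H u v) (hv : ∀ᶠ x in residual Y, v x = 0) :
    ∀ᶠ x in residual Y, u x = 0 := by
  obtain ⟨m, θ, g, h1, h2, h3, h4⟩ := h
  have key : ∀ i, ∀ᶠ x in residual Y, θ i x = 0 := by
    intro i
    have : ∀ᶠ x in residual Y, θ i ((g i).symm x) = 0 := by
      filter_upwards [h4, hv] with x hx hx'
      rw [hx'] at hx
      exact (Finset.sum_eq_zero_iff.1 hx.symm) i (Finset.mem_univ i)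
    have := res_comp (g i) this
    filter_upwards [this] with x hx
    simpa using hx
  filter_upwards [h3, eventually_all.2 key] with x hx hx'
  rw [hx]
  exact Finset.sum_eq_zero fun i _ => hx' i

lemma halving_E (hn : 0 < n) {f : Eu n → ℕ} (hf : Measurable f) (hb : BS f) :
    ∃ q : Eu n → ℕ, Measurable q ∧ BS q ∧ Transp (transl (Eu n)) f (fun x => 2 * q x) := by
  by_cases h0 : ∀ᶠ x in residual (Eu n), f x = 0
  · exact ⟨fun _ => 0, measurable_const, BS.zero, Transp.zero.congr h0
      (Eventually.of_forall fun x => rfl)⟩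
  · obtain ⟨ε, hε, hge⟩ := exists_eps hn hf hb h0 2
    obtain ⟨s₁, s₂, s₃, hs⟩ := exists_indep hn ε
    obtain ⟨q, hq, hqT⟩ := halving_X (X := Tor n ε)
      (fun s₁ s₂ hs c hc => Pool.Agent.Canc.coreZ0 s₁ s₂ hs c hc) s₁ s₂
      (fun a b hab => by
        have := hs a b 0 (by simpa using hab)
        exact ⟨this.1, this.2.1⟩)
      (measurable_bar hf hb) hge
    refine ⟨toE ε q, measurable_toE hq, BS_toE q, ?_⟩
    refine ((transp_toE_bar hf hb).trans (isGrp_transl _) (transp_toE hqT)).congr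
      (Eventually.of_forall fun x => rfl) (Eventually.of_forall fun x => ?_)
    unfold toE
    simp only
    split_ifs <;> simp

lemma cancel_E (hn : 0 < n) {f g : Eu n → ℕ} (hf : Measurable f) (hg : Measurable g)
    (hfb : BS f) (hgb : BS g)
    (h : Transp (transl (Eu n)) (fun x => 2 * f x) (fun x => 2 * g x)) :
    Transp (transl (Eu n)) f g := by
  by_cases h0 : ∀ᶠ x in residual (Eu n), g x = 0
  · have h1 : ∀ᶠ x in residual (Eu n), 2 * f x = 0 :=
      h.right_zero (by filter_upwards [h0] with x hx; simp [hx])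
    refine Transp.zero.congr ?_ h0
    filter_upwards [h1] with x hx
    omega
  · have hf2 : Measurable fun x => 2 * f x := hf.const_mul 2
    obtain ⟨m, θ, t, h1, h2, h3, h4, h5⟩ := h.exists_support hf2
    obtain ⟨v, hv⟩ := transl_pieces h2 h5
    obtain ⟨ε, hε, hge⟩ := exists_eps hn hg hgb h0 (2 * ((m + 3) * (m + 2)) + m)
    obtain ⟨s₁, s₂, s₃, hs⟩ := exists_indep hn ε
    have hθb : ∀ i, BS (θ i) := fun i => hfb.mono fun x hx => h3 i x (by simp [hx])
    obtain ⟨hF, hG⟩ := transp_pieces_bar (ε := ε) hθb h4 hv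
    refine transp_of_bar (ε := ε) hf hg hfb hgb ?_
    refine cancel_X (X := Tor n ε)
      (fun s₁ s₂ s₃ hs k w hw z hz hz01 v h =>
        Pool.Agent.Canc.coreQ s₁ s₂ s₃ hs k w hw z hz hz01 v h) s₁ s₂ s₃ hs
      (fun i => bar ε (θ i)) (fun i => measurable_bar (h1 i) (hθb i)) (fun i => prj ε (v i))
      ?_ ?_ hge
    · filter_upwards [hF] with ξ hξ
      rw [← bar_two hfb, hξ]
    · filter_upwards [hG] with ξ hξ
      rw [← bar_two hgb, hξ]

lemma BS_of_norm {f : Eu n → ℕ} {R : ℝ} (h : ∀ x, f x ≠ 0 → ‖x‖ ≤ R) : BS f := by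
  refine ⟨R, fun x hx i => ?_⟩
  have h2 : |x i| ≤ ‖x‖ := by
    simpa using PiLp.norm_apply_le x i
  exact h2.trans (h x hx)

lemma BS.norm {f : Eu n → ℕ} (hf : BS f) : ∃ R : ℝ, ∀ x, f x ≠ 0 → ‖x‖ ≤ R := by
  obtain ⟨R, hR⟩ := hf
  have hc : IsCompact ((fun y : Fin n → ℝ => (WithLp.toLp 2 y : Eu n)) ''
      (Metric.closedBall (0 : Fin n → ℝ) (max R 0))) :=
    (isCompact_closedBall _ _).image (PiLp.continuous_toLp 2 _)
  obtain ⟨R', hR'⟩ := hc.isBounded.exists_norm_le
  refine ⟨R', fun x hx => hR' x ?_⟩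
  refine ⟨fun i => x i, ?_, rfl⟩
  rw [mem_closedBall_zero_iff, pi_norm_le_iff_of_nonneg (le_max_right _ _)]
  intro i
  exact (hR x hx i).trans (le_max_left _ _)

lemma BS.comp_isom {f : Eu n → ℕ} (hf : BS f) {g : Eu n ≃ₜ Eu n} (hg : g ∈ isoms (Eu n)) :
    BS fun x => f (g.symm x) := by
  obtain ⟨R, hR⟩ := hf.norm
  have hi : Isometry g.symm := (isGrp_isoms (Eu n)).inv g hg
  refine BS_of_norm (R := R + ‖g.symm 0‖) fun x hx => ?_
  have h1 := hR _ hx
  have h2 : dist (g.symm x) (g.symm 0) = dist x 0 := hi.dist_eq x 0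
  rw [dist_zero_right, dist_eq_norm] at h2
  rw [← h2]
  exact (norm_sub_le _ _).trans (by linarith)

/-- Translations are normalised by isometries. -/
lemma conj_transl {g : Eu n ≃ₜ Eu n} (hg : g ∈ isoms (Eu n)) (t : Eu n) :
    ∃ t' : Eu n, ∀ x, g.symm x - t = g.symm (x - t') := by
  let e : Eu n ≃ᵢ Eu n := ⟨g.toEquiv, hg⟩
  let A := e.toRealAffineIsometryEquiv
  refine ⟨A.linearIsometryEquiv t, fun x => ?_⟩
  have hA : ∀ y, A y = g y := fun y => by
    rfl
  rw [Homeomorph.eq_symm_apply, ← hA]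
  have h1 := A.map_vadd (g.symm x) (-t)
  have h2 : -t +ᵥ g.symm x = g.symm x - t := by
    simp only [vadd_eq_add]
    abel
  rw [h2] at h1
  rw [h1, hA, Homeomorph.apply_symm_apply]
  simp only [map_neg, vadd_eq_add]
  abel

lemma Transp.comp_isom {u v : Eu n → ℕ} (h : Transp (transl (Eu n)) u v) {g : Eu n ≃ₜ Eu n}
    (hg : g ∈ isoms (Eu n)) :
    Transp (transl (Eu n)) (fun x => u (g.symm x)) (fun x => v (g.symm x)) := by
  obtain ⟨m, θ, k, h1, h2, h3, h4⟩ := h
  obtain ⟨t, ht⟩ := transl_pieces h2 h4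
  choose t' ht' using fun i => conj_transl hg (t i)
  have key : Transp (transl (Eu n)) (fun x => ∑ i, θ i (g.symm x))
      (fun x => ∑ i, θ i (g.symm (x - t' i))) := by
    refine Transp.sum _ fun i _ => ?_
    exact transp_shift (f := fun x => θ i (g.symm x))
      ((h1 i).comp g.symm.continuous.measurable) (t' i)
  refine key.congr ?_ ?_
  · exact res_comp g.symm h3
  · filter_upwards [res_comp g.symm ht] with x hx
    rw [hx]
    refine Finset.sum_congr rfl fun i _ => ?_
    rw [ht' i x]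

lemma transl_sub_isoms : transl (Eu n) ⊆ isoms (Eu n) := by
  rintro g hg
  obtain ⟨v, hv⟩ := mem_transl.1 hg
  refine Isometry.of_dist_eq fun x y => ?_
  rw [hv, hv]
  simp

/-- **Cancellation by 2** for the transport relation of isometries of `ℝ^n`, `n ≥ 1`. -/
theorem main (hn : 0 < n) {f g : Eu n → ℕ} (hf : Measurable f) (hg : Measurable g)
    (hfb : BS f) (hgb : BS g)
    (h : Transp (isoms (Eu n)) (fun x => 2 * f x) (fun x => 2 * g x)) :
    Transp (isoms (Eu n)) f g := by
  have hGi := isGrp_isoms (Eu n)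
  have hGt := isGrp_transl (Eu n)
  have hf2 : Measurable fun x => 2 * f x := hf.const_mul 2
  obtain ⟨m, P, k, h1, h2, h3, h4, h5⟩ := h.exists_support hf2
  have hPb : ∀ i, BS (P i) := fun i => hfb.mono fun x hx => h3 i x (by simp [hx])
  choose q hq hqb hqT using fun i => halving_E hn (h1 i) (hPb i)
  have hqs : Measurable fun x => ∑ i, q i x := Finset.measurable_sum _ fun i _ => hq i
  have hqk : ∀ i, Measurable fun x => q i ((k i).symm x) := fun i =>
    (hq i).comp (k i).symm.continuous.measurable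
  have hqks : Measurable fun x => ∑ i, q i ((k i).symm x) :=
    Finset.measurable_sum _ fun i _ => hqk i
  have a1 : Transp (transl (Eu n)) f (fun x => ∑ i, q i x) := by
    refine cancel_E hn hf hqs hfb (BS.sum _ fun i _ => hqb i) ?_
    refine (Transp.sum Finset.univ fun i _ => hqT i).congr h4 (Eventually.of_forall fun x => ?_)
    simp only [Finset.mul_sum]
  have a2 : Transp (transl (Eu n)) g (fun x => ∑ i, q i ((k i).symm x)) := by
    refine cancel_E hn hg hqks hgb (BS.sum _ fun i _ => (hqb i).comp_isom (h2 i)) ?_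
    refine (Transp.sum Finset.univ fun i _ => (hqT i).comp_isom (h2 i)).congr h5
      (Eventually.of_forall fun x => ?_)
    simp only [Finset.mul_sum]
  have a3 : Transp (isoms (Eu n)) (fun x => ∑ i, q i x) (fun x => ∑ i, q i ((k i).symm x)) :=
    Transp.sum _ fun i _ => Transp.single (hq i) (h2 i)
  exact ((a1.mono transl_sub_isoms).trans hGi a3).trans hGi
    ((a2.mono transl_sub_isoms).symm hGi)

/-- The form used for sets. -/
theorem main_sets (hn : 0 < n) (A B : Set (Eu n)) (hA : MeasurableSet A) (hB : MeasurableSet B)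
    (hAb : Bornology.IsBounded A) (hBb : Bornology.IsBounded B)
    (h : Transp (isoms (Eu n)) (fun x => 2 * A.indicator (fun _ => (1 : ℕ)) x)
      (fun x => 2 * B.indicator (fun _ => (1 : ℕ)) x)) :
    Transp (isoms (Eu n)) (A.indicator (fun _ => (1 : ℕ))) (B.indicator (fun _ => (1 : ℕ))) := by
  have hbs : ∀ C : Set (Eu n), Bornology.IsBounded C → BS (C.indicator (fun _ => (1 : ℕ))) := by
    intro C hC
    obtain ⟨R, hR⟩ := hC.exists_norm_le
    refine BS_of_norm (R := R) fun x hx => hR x ?_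
    by_contra hxC
    exact hx (Set.indicator_of_notMem hxC _)
  exact main hn (measurable_const.indicator hA) (measurable_const.indicator hB) (hbs A hAb)
    (hbs B hBb) h

end

end Eq2
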