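import Pool.Agent.Lib_helper2.Eq2Transp

/-!
Passing from `ℝ^n` to the torus `(ℝ/εℤ)^n` : fibre sums.
-/

open Filter Topology

set_option linter.unusedSectionVars false

namespace Eq2

noncomputable section

/-- Euclidean space -/
abbrev Eu (n : ℕ) := EuclideanSpace ℝ (Fin n)

/-- The torus with period `ε` -/
abbrev Tor (n : ℕ) (ε : ℝ) := Fin n → AddCircle ε

variable {n : ℕ}

/-- projection -/
def prj (ε : ℝ) (x : Eu n) : Tor n ε := fun i => (x i : AddCircle ε)

/-- lattice vector -/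
def lat (ε : ℝ) (l : Fin n → ℤ) : Eu n := WithLp.toLp 2 fun i => (l i : ℝ) * ε

/-- section of the projection -/
def sec (ε : ℝ) [Fact (0 < ε)] (ξ : Tor n ε) : Eu n :=
  WithLp.toLp 2 fun i => (AddCircle.equivIco ε 0 (ξ i) : ℝ)

lemma lat_apply (ε : ℝ) (l : Fin n → ℤ) (i : Fin n) : lat ε l i = (l i : ℝ) * ε := rfl

lemma sec_apply (ε : ℝ) [Fact (0 < ε)] (ξ : Tor n ε) (i : Fin n) :
    sec ε ξ i = (AddCircle.equivIco ε 0 (ξ i) : ℝ) := rfl

lemma prj_apply (ε : ℝ) (x : Eu n) (i : Fin n) : prj ε x i = (x i : AddCircle ε) := rfl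

lemma prj_add (ε : ℝ) (x y : Eu n) : prj ε (x + y) = prj ε x + prj ε y := by
  funext i
  simp [prj_apply]

lemma prj_sub (ε : ℝ) (x y : Eu n) : prj ε (x - y) = prj ε x - prj ε y := by
  funext i
  simp [prj_apply]

lemma prj_lat (ε : ℝ) (l : Fin n → ℤ) : prj ε (lat ε l) = 0 := by
  funext i
  simp only [prj_apply, lat_apply, Pi.zero_apply]
  rw [AddCircle.coe_eq_zero_iff]
  exact ⟨l i, by simp⟩

lemma prj_add_lat (ε : ℝ) (x : Eu n) (l : Fin n → ℤ) : prj ε (x + lat ε l) = prj ε x := by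
  rw [prj_add, prj_lat, add_zero]

lemma lat_add (ε : ℝ) (l m : Fin n → ℤ) : lat ε (l + m) = lat ε l + lat ε m := by
  ext i
  simp [lat_apply, add_mul]

lemma lat_zero (ε : ℝ) : lat ε (0 : Fin n → ℤ) = 0 := by
  ext i
  simp [lat_apply]

lemma lat_inj {ε : ℝ} (hε : 0 < ε) {l m : Fin n → ℤ} (h : lat ε l = lat ε m) : l = m := by
  funext i
  have := congrArg (fun x : Eu n => x i) h
  simp only [lat_apply] at this
  have h2 := mul_right_cancel₀ hε.ne' this
  exact_mod_cast h2

variable {ε : ℝ} [hε : Fact (0 < ε)]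

lemma prj_sec (ξ : Tor n ε) : prj ε (sec ε ξ) = ξ := by
  funext i
  simp only [prj_apply, sec_apply]
  exact AddCircle.coe_equivIco

lemma exists_lat_of_prj_eq {x y : Eu n} (h : prj ε x = prj ε y) : ∃ l, x = y + lat ε l := by
  have : ∀ i, ∃ k : ℤ, x i = y i + k * ε := by
    intro i
    have h1 := congrFun h i
    simp only [prj_apply] at h1
    have h2 : ((x i - y i : ℝ) : AddCircle ε) = 0 := by
      rw [AddCircle.coe_sub, h1, sub_self]
    rw [AddCircle.coe_eq_zero_iff] at h2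
    obtain ⟨k, hk⟩ := h2
    refine ⟨k, ?_⟩
    have : (k : ℝ) * ε = x i - y i := by simpa using hk
    linarith
  choose l hl using this
  refine ⟨l, ?_⟩
  ext i
  simp [lat_apply, hl i]

lemma exists_lat (x : Eu n) : ∃ l, x = sec ε (prj ε x) + lat ε l :=
  exists_lat_of_prj_eq (by rw [prj_sec])

lemma sec_mem (ξ : Tor n ε) (i : Fin n) : 0 ≤ sec ε ξ i ∧ sec ε ξ i < ε := by
  have := (AddCircle.equivIco ε 0 (ξ i)).2
  simp only [zero_add, Set.mem_Ico] at this
  exact this

lemma sec_eq_of_mem {x : Eu n} (hx : ∀ i, 0 ≤ x i ∧ x i < ε) : sec ε (prj ε x) = x := by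
  ext i
  simp only [sec_apply, prj_apply]
  exact AddCircle.equivIco_coe_of_mem (by simpa using hx i)

lemma continuous_prj : Continuous (prj (n := n) ε) := by
  unfold prj
  refine continuous_pi fun i => ?_
  exact (AddCircle.continuous_mk' ε).comp (by fun_prop)

lemma isOpenMap_prj : IsOpenMap (prj (n := n) ε) := by
  have h1 : IsOpenMap (fun (x : Fin n → ℝ) (i : Fin n) => (x i : AddCircle ε)) := by
    refine IsOpenMap.piMap (fun i => QuotientAddGroup.isOpenMap_coe) ?_
    filter_upwards with i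
    exact QuotientAddGroup.mk_surjective
  exact h1.comp (PiLp.homeomorph 2 (fun _ : Fin n => ℝ)).isOpenMap

lemma measurable_prj : Measurable (prj (n := n) ε) := continuous_prj.measurable

lemma measurable_sec : Measurable (sec (n := n) ε) := by
  unfold sec
  refine (PiLp.continuous_toLp 2 _).measurable.comp ?_
  refine measurable_pi_lambda _ fun i => ?_
  exact (measurable_subtype_coe.comp (AddCircle.measurableEquivIco ε 0).measurable).comp
    (measurable_pi_apply i)

/-! ### Residual sets upstairs and downstairs -/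

lemma res_prj {P : Tor n ε → Prop} (h : ∀ᶠ ξ in residual (Tor n ε), P ξ) :
    ∀ᶠ x in residual (Eu n), P (prj ε x) :=
  (tendsto_residual_of_isOpenMap continuous_prj isOpenMap_prj).eventually h

lemma dense_ne_zero : Dense ({0}ᶜ : Set (AddCircle ε)) := by
  have h1 : Dense ((Set.range fun k : ℤ => (k : ℝ) * ε)ᶜ : Set ℝ) :=
    (Set.countable_range _).dense_compl ℝ
  have h2 : Dense ((fun x : ℝ => (x : AddCircle ε)) '' (Set.range fun k : ℤ => (k : ℝ) * ε)ᶜ) :=
    (QuotientAddGroup.mk_surjective.denseRange).dense_image (AddCircle.continuous_mk' ε) h1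
  refine h2.mono ?_
  rintro _ ⟨x, hx, rfl⟩
  simp only [Set.mem_compl_iff, Set.mem_singleton_iff]
  intro h
  apply hx
  rw [AddCircle.coe_eq_zero_iff] at h
  obtain ⟨k, hk⟩ := h
  exact ⟨k, by simpa using hk⟩

lemma dense_U : Dense {ξ : Tor n ε | ∀ i, ξ i ≠ 0} := by
  have : Dense (Set.pi Set.univ fun _ : Fin n => ({0}ᶜ : Set (AddCircle ε))) :=
    dense_pi Set.univ fun i _ => dense_ne_zero
  refine this.mono ?_
  intro ξ hξ i
  simpa using hξ i (Set.mem_univ i)

lemma isOpen_box : IsOpen {x : Eu n | ∀ i, 0 < x i ∧ x i < ε} := by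
  simp only [Set.ofPred_forall]
  refine isOpen_iInter_of_finite fun i => ?_
  have hc : Continuous fun x : Eu n => x i := by fun_prop
  exact (isOpen_lt continuous_const hc).inter (isOpen_lt hc continuous_const)

lemma res_sec_aux {P : Eu n → Prop} (h : ∀ᶠ x in residual (Eu n), P x) :
    ∀ᶠ ξ in residual (Tor n ε), P (sec ε ξ) := by
  rw [Filter.Eventually, mem_residual_iff] at h
  obtain ⟨S, hSo, hSd, hSc, hS⟩ := h
  let Ω : Set (Eu n) := {x : Eu n | ∀ i, 0 < x i ∧ x i < ε}
  have key : ∀ t ∈ S, prj ε '' (Ω ∩ t) ∈ residual (Tor n ε) := by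
    intro t ht
    refine residual_of_dense_open (isOpenMap_prj _ (isOpen_box.inter (hSo t ht))) ?_
    rw [dense_iff_inter_open]
    intro W hW hWne
    obtain ⟨ξ, hξW, hξU⟩ := dense_U.inter_open_nonempty W hW hWne
    have hΩ : sec ε ξ ∈ Ω := by
      intro i
      refine ⟨lt_of_le_of_ne (sec_mem ξ i).1 ?_, (sec_mem ξ i).2⟩
      intro h0
      apply hξU i
      have := congrFun (prj_sec (ε := ε) ξ) i
      rw [← this, prj_apply, ← h0]
      simp
    have hop : IsOpen (prj ε ⁻¹' W ∩ Ω) := (hW.preimage continuous_prj).inter isOpen_box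
    obtain ⟨z, hz, hzt⟩ := (hSd t ht).inter_open_nonempty _ hop
      ⟨sec ε ξ, by simpa [prj_sec] using hξW, hΩ⟩
    exact ⟨prj ε z, hz.1, z, ⟨hz.2, hzt⟩, rfl⟩
  have h2 : (⋂ t ∈ S, prj ε '' (Ω ∩ t)) ∈ residual (Tor n ε) :=
    (countable_bInter_mem hSc).2 key
  filter_upwards [h2] with ξ hξ
  apply hS
  intro t ht
  simp only [Set.mem_iInter] at hξ
  obtain ⟨z, ⟨hz1, hz2⟩, hz⟩ := hξ t ht
  rw [← hz, sec_eq_of_mem fun i => ⟨(hz1 i).1.le, (hz1 i).2⟩]
  exact hz2

lemma res_sec {P : Eu n → Prop} (h : ∀ᶠ x in residual (Eu n), P x) :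
    ∀ᶠ ξ in residual (Tor n ε), ∀ l, P (sec ε ξ + lat ε l) := by
  rw [eventually_countable_forall]
  intro l
  have := res_comp (Homeomorph.addRight (lat ε l)) h
  exact res_sec_aux this

/-! ### Fibre sums -/

/-- bounded support, in coordinates -/
def BS (f : Eu n → ℕ) : Prop := ∃ R : ℝ, ∀ x, f x ≠ 0 → ∀ i, |x i| ≤ R

/-- finite box in `ℤ^n` -/
def box (n N : ℕ) : Finset (Fin n → ℤ) := Fintype.piFinset fun _ => Finset.Icc (-(N : ℤ)) N

lemma mem_box {N : ℕ} {l : Fin n → ℤ} : l ∈ box n N ↔ ∀ i, |l i| ≤ N := by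
  simp [box, abs_le]

/-- fibre sum -/
def bar (ε : ℝ) [Fact (0 < ε)] (f : Eu n → ℕ) (ξ : Tor n ε) : ℕ :=
  ∑ᶠ l : Fin n → ℤ, f (sec ε ξ + lat ε l)

lemma bar_prj (f : Eu n → ℕ) (x : Eu n) : bar ε f (prj ε x) = ∑ᶠ l, f (x + lat ε l) := by
  obtain ⟨m, hm⟩ := exists_lat (ε := ε) x
  have : (fun l => f (x + lat ε l)) =
      (fun l => f (sec ε (prj ε x) + lat ε (Equiv.addLeft m l))) := by
    funext l
    rw [Equiv.coe_addLeft, lat_add, ← add_assoc, ← hm]
  rw [this, finsum_comp_equiv (Equiv.addLeft m)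
    (f := fun l => f (sec ε (prj ε x) + lat ε l))]
  rfl

lemma BS.exists_box {f : Eu n → ℕ} (hf : BS f) :
    ∃ N : ℕ, ∀ (ξ : Tor n ε) l, f (sec ε ξ + lat ε l) ≠ 0 → l ∈ box n N := by
  obtain ⟨R, hR⟩ := hf
  obtain ⟨N, hN⟩ := exists_nat_ge ((R + ε) / ε)
  refine ⟨N, fun ξ l h => mem_box.2 fun i => ?_⟩
  have h1 := hR _ h i
  have h2 := sec_mem ξ i
  have h3 : (sec ε ξ + lat ε l) i = sec ε ξ i + l i * ε := rfl
  rw [h3, abs_le] at h1
  have hε0 : 0 < ε := hε.out
  have h4 : |(l i : ℝ)| * ε ≤ R + ε := by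
    rw [← abs_of_pos hε0, ← abs_mul, abs_of_pos hε0, abs_le]
    constructor <;> linarith
  have h5 : |(l i : ℝ)| ≤ N := le_trans (by rwa [le_div_iff₀ hε0]) hN
  exact_mod_cast h5

lemma bar_eq_sum {f : Eu n → ℕ} {N : ℕ} {ξ : Tor n ε}
    (h : ∀ l, f (sec ε ξ + lat ε l) ≠ 0 → l ∈ box n N) :
    bar ε f ξ = ∑ l ∈ box n N, f (sec ε ξ + lat ε l) :=
  finsum_eq_sum_of_support_subset _ fun l hl => h l hl

lemma measurable_bar {f : Eu n → ℕ} (hf : Measurable f) (hb : BS f) :
    Measurable (bar (n := n) ε f) := by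
  obtain ⟨N, hN⟩ := hb.exists_box (ε := ε)
  have : bar (n := n) ε f = fun ξ => ∑ l ∈ box n N, f (sec ε ξ + lat ε l) := by
    funext ξ
    exact bar_eq_sum (hN ξ)
  rw [this]
  refine Finset.measurable_sum _ fun l _ => hf.comp ?_
  exact measurable_sec.add_const _

lemma BS.zero : BS (fun _ : Eu n => 0) := ⟨0, fun _ h => absurd rfl h⟩

lemma BS.mono {f g : Eu n → ℕ} (hg : BS g) (h : ∀ x, g x = 0 → f x = 0) : BS f := by
  obtain ⟨R, hR⟩ := hg
  exact ⟨R, fun x hx => hR x fun h0 => hx (h x h0)⟩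

lemma BS.sum {ι : Type*} (s : Finset ι) {f : ι → Eu n → ℕ} (h : ∀ i ∈ s, BS (f i)) :
    BS (fun x => ∑ i ∈ s, f i x) := by
  classical
  induction s using Finset.induction_on with
  | empty => simpa using BS.zero
  | insert a s ha ih =>
    obtain ⟨R, hR⟩ := h a (Finset.mem_insert_self a s)
    obtain ⟨R', hR'⟩ := ih fun i hi => h i (Finset.mem_insert_of_mem hi)
    refine ⟨max R R', fun x hx i => ?_⟩
    simp only [Finset.sum_insert ha] at hx
    by_cases h0 : f a x = 0
    · have : ∑ i ∈ s, f i x ≠ 0 := by omega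
      exact (hR' x this i).trans (le_max_right _ _)
    · exact (hR x h0 i).trans (le_max_left _ _)

lemma BS.add {f g : Eu n → ℕ} (hf : BS f) (hg : BS g) : BS (fun x => f x + g x) := by
  obtain ⟨R, hR⟩ := hf
  obtain ⟨R', hR'⟩ := hg
  refine ⟨max R R', fun x hx i => ?_⟩
  simp only at hx
  by_cases h0 : f x = 0
  · have : g x ≠ 0 := by omega
    exact (hR' x this i).trans (le_max_right _ _)
  · exact (hR x h0 i).trans (le_max_left _ _)

lemma BS.shift {f : Eu n → ℕ} (hf : BS f) (v : Eu n) : BS (fun x => f (x - v)) := by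
  obtain ⟨R, hR⟩ := hf
  refine ⟨R + ‖v‖, fun x hx i => ?_⟩
  have h1 := hR _ hx i
  have h2 : |v i| ≤ ‖v‖ := by
    simpa using PiLp.norm_apply_le v i
  have h3 : (x - v) i = x i - v i := rfl
  rw [h3] at h1
  have h4 : |x i| ≤ |x i - v i| + |v i| := by
    have := abs_add_le (x i - v i) (v i)
    simpa using this
  linarith

lemma bar_finset_sum {ι : Type*} (s : Finset ι) {f : ι → Eu n → ℕ} (h : ∀ i ∈ s, BS (f i))
    (ξ : Tor n ε) : bar ε (fun x => ∑ i ∈ s, f i x) ξ = ∑ i ∈ s, bar ε (f i) ξ := by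
  classical
  have hex : ∃ N : ℕ, ∀ i ∈ s, ∀ (ξ : Tor n ε) l, f i (sec ε ξ + lat ε l) ≠ 0 → l ∈ box n N := by
    choose! N hN using fun i hi => (h i hi).exists_box (ε := ε)
    refine ⟨s.sup N, fun i hi ξ l hl => ?_⟩
    have := mem_box.1 (hN i hi ξ l hl)
    refine mem_box.2 fun j => (this j).trans ?_
    exact_mod_cast Finset.le_sup (f := N) hi
  obtain ⟨N, hN⟩ := hex
  rw [bar_eq_sum (N := N)]
  · rw [Finset.sum_comm]
    refine Finset.sum_congr rfl fun i hi => ?_
    rw [bar_eq_sum (N := N) (hN i hi ξ)]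
  · intro l hl
    obtain ⟨i, hi, hil⟩ := Finset.exists_ne_zero_of_sum_ne_zero hl
    exact hN i hi ξ l hil

lemma bar_add {f g : Eu n → ℕ} (hf : BS f) (hg : BS g) (ξ : Tor n ε) :
    bar ε (fun x => f x + g x) ξ = bar ε f ξ + bar ε g ξ := by
  have := bar_finset_sum (ε := ε) (Finset.univ : Finset Bool) (f := fun b => if b then f else g)
    (by intro b _; cases b <;> simpa) ξ
  simpa using this

lemma bar_shift (f : Eu n → ℕ) (v : Eu n) (ξ : Tor n ε) :
    bar ε (fun x => f (x - v)) ξ = bar ε f (ξ - prj ε v) := by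
  have h1 := bar_prj (ε := ε) (fun x => f (x - v)) (sec ε ξ)
  have h2 := bar_prj (ε := ε) f (sec ε ξ - v)
  rw [prj_sec] at h1
  rw [prj_sub, prj_sec] at h2
  rw [h1, h2]
  congr 1
  funext l
  congr 1
  abel

/-- a function on the torus, put on the fundamental domain -/
def toE (ε : ℝ) [Fact (0 < ε)] (F : Tor n ε → ℕ) (x : Eu n) : ℕ :=
  open Classical in if sec ε (prj ε x) = x then F (prj ε x) else 0

lemma measurable_toE {F : Tor n ε → ℕ} (hF : Measurable F) : Measurable (toE ε F) := by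
  unfold toE
  refine Measurable.ite ?_ (hF.comp measurable_prj) measurable_const
  exact measurableSet_eq_fun (measurable_sec.comp measurable_prj) measurable_id

lemma BS_toE (F : Tor n ε → ℕ) : BS (toE ε F) := by
  refine ⟨ε, fun x hx i => ?_⟩
  unfold toE at hx
  split_ifs at hx with h
  · have := sec_mem (prj ε x) i
    rw [h] at this
    rw [abs_le]
    constructor <;> linarith
  · exact absurd rfl hx

lemma bar_toE (F : Tor n ε → ℕ) (ξ : Tor n ε) : bar ε (toE ε F) ξ = F ξ := by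
  unfold bar
  rw [finsum_eq_single _ 0]
  · simp [toE, lat_zero, prj_sec]
  · intro l hl
    unfold toE
    rw [prj_add_lat, prj_sec, if_neg]
    intro h
    apply hl
    have h1 : lat ε l = 0 := by
      have : sec ε ξ + lat ε l = sec ε ξ + 0 := by rw [← h, add_zero]
      exact add_left_cancel this
    rw [← lat_zero ε] at h1
    exact lat_inj hε.out h1

/-- Cutting along the fundamental domains and moving everything to the base domain. -/
lemma transp_toE_bar {f : Eu n → ℕ} (hf : Measurable f) (hb : BS f) :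
    Transp (transl (Eu n)) f (toE ε (bar ε f)) := by
  classical
  obtain ⟨N, hN⟩ := hb.exists_box (ε := ε)
  refine Transp.of_fintype (ι := box n N)
    (fun l x => if x = sec ε (prj ε x) + lat ε l.1 then f x else 0)
    (fun l => Homeomorph.addRight (-lat ε l.1)) ?_ ?_ ?_ ?_
  · intro l
    refine Measurable.ite ?_ hf measurable_const
    exact measurableSet_eq_fun measurable_id ((measurable_sec.comp measurable_prj).add_const _)
  · intro l
    exact ⟨_, rfl⟩
  · refine Eventually.of_forall fun x => ?_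
    obtain ⟨m, hm⟩ := exists_lat (ε := ε) x
    have h1 : ∀ l : Fin n → ℤ, x = sec ε (prj ε x) + lat ε l ↔ l = m := by
      intro l
      constructor
      · intro h
        rw [h] at hm
        rw [prj_add_lat, prj_sec] at hm
        exact lat_inj hε.out (add_left_cancel hm)
      · rintro rfl
        exact hm
    simp only [h1]
    by_cases hfx : f x = 0
    · simp [hfx]
    · have hmN : m ∈ box n N := by
        apply hN (prj ε x) m
        rwa [← hm]
      rw [Finset.sum_coe_sort (box n N) (fun l => if l = m then f x else 0)]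
      rw [Finset.sum_ite_eq' (box n N) m (fun _ => f x), if_pos hmN]
  · refine Eventually.of_forall fun x => ?_
    simp only [Homeomorph.addRight_symm, Homeomorph.coe_addRight, neg_neg, prj_add_lat]
    unfold toE
    by_cases h : sec ε (prj ε x) = x
    · rw [if_pos h, bar_eq_sum (N := N) (hN _)]
      rw [Finset.sum_coe_sort (box n N)
        (fun l => if x + lat ε l = sec ε (prj ε x) + lat ε l then f (x + lat ε l) else 0)]
      refine Finset.sum_congr rfl fun l _ => ?_
      simp [h]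
    · rw [if_neg h]
      symm
      apply Finset.sum_eq_zero
      intro l _
      rw [if_neg]
      intro h'
      exact h (add_right_cancel h').symm

end

end Eq2
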